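import Pool.Agent.Run7.h568.DG.CIface
import Pool.Agent.Run7.h483.DG.Gauge

/-!
# Dense Thurston geodesics, closed surfaces: telescoping (piece `C_tele`, by helper939)
-/

open Real Matrix

noncomputable section

namespace Run7.h939.DG

open Run7.h568.DG Run7.h483.DG

variable {D : Type} [Fintype D] [DecidableEq D]

theorem Pd_zero {T : Tri D} {P : Portal T} (t : PTD P) (p : (D → ℝ) × ℝ) (d : D) :
    t.Pd p d 0 = 1 := by
  simp [PTD.Pd]

theorem Pd_succ {T : Tri D} {P : Portal T} (t : PTD P) (p : (D → ℝ) × ℝ) (d : D) (n : ℕ) :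
    t.Pd p d (n + 1) = t.Pd p d n * t.str p (d, n) ^ t.m (d, n) := by
  simp [PTD.Pd, List.range_succ]

theorem conjz' (g s : SL) (m : ℤ) : (g⁻¹ * s⁻¹ * g) ^ m = g⁻¹ * (s ^ m)⁻¹ * g := by
  have h := conj_zpow (i := m) (a := g⁻¹) (b := s⁻¹)
  rw [inv_inv, _root_.inv_zpow] at h
  exact h

/-- The partial products on both sides of a crossing. -/
theorem Fconst {T : Tri D} {P : Portal T} (t : PTD P) (p : (D → ℝ) × ℝ) (d e : D) (M lo hi : ℕ)
    (X : SL) (h : ∀ j, lo ≤ j → j < hi → t.str p (e, M - 1 - j) = X⁻¹ * (t.str p (d, j))⁻¹ * X ∧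
      t.m (e, M - 1 - j) = t.m (d, j) ∧ j < M) :
    ∀ j, lo ≤ j → j ≤ hi → t.Pd p d j * X * (t.Pd p e (M - j))⁻¹ =
      t.Pd p d lo * X * (t.Pd p e (M - lo))⁻¹ := by
  intro j hlo
  induction j, hlo using Nat.le_induction with
  | base => intro _; rfl
  | succ j hj ih =>
    intro hhi
    obtain ⟨h1, h2, h3⟩ := h j hj (by omega)
    rw [← ih (by omega), Pd_succ]
    have e1 : M - j = (M - 1 - j) + 1 := by omega
    have e2 : M - (j + 1) = M - 1 - j := by omega
    rw [e1, e2, Pd_succ, h1, h2, conjz']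
    group

theorem inv_of_EE (s : ℝ) (g : SL) : E s * g⁻¹ = -(g * E s)⁻¹ := by
  have h : (E s)⁻¹ = -E s := by
    have h1 := EE s
    have h2 : E s * (-E s) = 1 := by rw [mul_neg, h1, neg_neg]
    exact inv_eq_of_mul_eq_one_right h2
  rw [_root_.mul_inv_rev, h, neg_mul, neg_neg]

/-- The crossing formula. -/
theorem cross_formula (hS : C_str) (hH : C_H) (T : Tri D) (P : Portal T) (t : PTD P)
    (p : (D → ℝ) × ℝ) (hx : ∀ d, p.1 (T.io d) = p.1 d) (d : D) (j : ℕ) (hj : j < T.num t.c d) :
    t.xR p (d, j) = t.Pd p d (j + 1) * P.xm p t.c t.a (d, j) *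
      (t.Pd p (P.cross t.c t.a (d, j)).1 (P.cross t.c t.a (d, j)).2)⁻¹ := by
  have huv : P.u ≠ P.v := P.huv 0
  have hne : P.v ≠ T.io P.u := P.hne
  have hne2 : P.u ≠ T.io P.v := by
    intro h
    apply hne
    rw [h, T.io_io]
  have hiu : T.io P.u ≠ P.u := T.io_ne _
  have hiv : T.io P.v ≠ P.v := T.io_ne _
  have hiuv : T.io P.u ≠ T.io P.v := fun h => huv (T.io.injective h)
  obtain ⟨hH1, hH2, hH3, hH4⟩ := hH T P t p hx
  obtain ⟨hM1, hM2, hM3⟩ := t.hc
  by_cases h1 : d = T.io P.u
  · subst h1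
    by_cases h2 : T.num t.c P.u ≤ j
    · -- across `α`
      have key := Fconst t p (T.io P.u) P.v (T.num t.c (T.io P.u)) (T.num t.c P.u)
        (T.num t.c (T.io P.u)) (E (p.1 P.u) * P.J p) (fun i hi1 hi2 => by
          have e1 := (hS T P t p hx (T.io P.u) i hi2).2.1
          have e2 := t.m_rev (T.io P.u) i hi2
          have e3 : P.cross t.c t.a (T.io P.u, i) = (P.v, T.num t.c (T.io P.u) - 1 - i) := by
            simp [Portal.cross, hi1]
          have e4 : P.xm p t.c t.a (T.io P.u, i) = E (p.1 P.u) * P.J p := by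
            simp [Portal.xm, hi1]
          rw [e3, e4] at e1
          rw [e3] at e2
          exact ⟨e1, e2, hi2⟩)
      have k1 := key (j + 1) (by omega) (by omega)
      have k2 := key (T.num t.c (T.io P.u)) (by omega) le_rfl
      rw [← k2, Nat.sub_self, Pd_zero, inv_one, mul_one] at k1
      have e3 : P.cross t.c t.a (T.io P.u, j) = (P.v, T.num t.c (T.io P.u) - 1 - j) := by
        simp [Portal.cross, h2]
      have e4 : P.xm p t.c t.a (T.io P.u, j) = E (p.1 P.u) * P.J p := by
        simp [Portal.xm, h2]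
      have e5 : t.xR p (T.io P.u, j) = t.Ri p (T.io P.u) * t.RJ p := by
        simp [PTD.xR, h2]
      have e6 : T.num t.c (T.io P.u) - (j + 1) = T.num t.c (T.io P.u) - 1 - j := by omega
      rw [e6] at k1
      rw [e3, e4, e5, k1]
      have e7 : t.Ri p (T.io P.u) = -(t.H p P.u * E (p.1 P.u))⁻¹ := by simp [PTD.Ri]
      have e8 : t.Pd p (T.io P.u) (T.num t.c (T.io P.u)) = t.H p (T.io P.u) := rfl
      rw [e7, e8, hH3, ← inv_of_EE]
      have e9 : E (p.1 P.u) * (t.H p P.u)⁻¹ * t.RJ p =
          -((E (p.1 P.u))⁻¹ * (t.H p P.u)⁻¹ * t.RJ p) := by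
        have h := EE (p.1 P.u)
        have h' : E (p.1 P.u) = (-1 : SL) * (E (p.1 P.u))⁻¹ := by
          rw [← h]; group
        conv_lhs => rw [h']
        simp
      rw [e9]
      unfold PTD.RJ
      have h := EE (p.1 P.u)
      have h' : E (p.1 P.u) * (E (p.1 P.u) * P.J p) = -P.J p := by
        rw [← mul_assoc, h]; simp
      have e10 : (E (p.1 P.u))⁻¹ * (t.H p P.u)⁻¹ * E (p.1 P.u) *
          (((P.J p)⁻¹ * E (p.1 P.u))⁻¹ * (t.B p)⁻¹ * ((P.J p)⁻¹ * E (p.1 P.u))) *
            (E (p.1 P.u) * P.J p) =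
          (E (p.1 P.u))⁻¹ * (t.H p P.u)⁻¹ * P.J p * (t.B p)⁻¹ * (P.J p)⁻¹ *
            (E (p.1 P.u) * (E (p.1 P.u) * P.J p)) := by group
      rw [e10, h']
      simp only [mul_neg]
      group
    · -- in the surface
      have h2' : j < T.num t.c P.u := by omega
      have key := Fconst t p (T.io P.u) P.u (T.num t.c P.u) 0
        (T.num t.c P.u) (E (p.1 P.u)) (fun i hi1 hi2 => by
          have hi3 : i < T.num t.c (T.io P.u) := by omega
          have hi4 : ¬ T.num t.c P.u ≤ i := by omega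
          have e1 := (hS T P t p hx (T.io P.u) i hi3).2.1
          have e2 := t.m_rev (T.io P.u) i hi3
          have e3 : P.cross t.c t.a (T.io P.u, i) = (P.u, T.num t.c P.u - 1 - i) := by
            simp [Portal.cross, hi4]
          have e4 : P.xm p t.c t.a (T.io P.u, i) = E (p.1 P.u) := by
            simp [Portal.xm, hi4, hne.symm, hx]
          rw [e3, e4] at e1
          rw [e3] at e2
          exact ⟨e1, e2, hi2⟩)
      have k1 := key (j + 1) (by omega) (by omega)
      rw [Nat.sub_zero, Pd_zero, one_mul] at k1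
      have e3 : P.cross t.c t.a (T.io P.u, j) = (P.u, T.num t.c P.u - 1 - j) := by
        simp [Portal.cross, h2]
      have e4 : P.xm p t.c t.a (T.io P.u, j) = E (p.1 P.u) := by
        simp [Portal.xm, h2, hne.symm, hx]
      have e5 : t.xR p (T.io P.u, j) = t.Ri p (T.io P.u) := by
        simp [PTD.xR, h2, hne.symm]
      have e6 : T.num t.c P.u - (j + 1) = T.num t.c P.u - 1 - j := by omega
      rw [e6] at k1
      rw [e3, e4, e5, k1]
      have e7 : t.Ri p (T.io P.u) = -(t.H p P.u * E (p.1 P.u))⁻¹ := by simp [PTD.Ri]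
      have e8 : t.Pd p P.u (T.num t.c P.u) = t.H p P.u := rfl
      rw [e7, e8, inv_of_EE]
  by_cases h2 : d = P.v
  · subst h2
    by_cases h3 : j < t.a
    · -- across `α`
      have hN : T.num t.c P.u + t.a = T.num t.c (T.io P.u) := hM2.symm
      have key := Fconst t p P.v (T.io P.u) (T.num t.c (T.io P.u)) 0
        t.a ((P.J p)⁻¹ * E (p.1 P.u)) (fun i hi1 hi2 => by
          have hi3 : i < T.num t.c P.v := by omega
          have e1 := (hS T P t p hx P.v i hi3).2.1
          have e2 := t.m_rev P.v i hi3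
          have e3 : P.cross t.c t.a (P.v, i) = (T.io P.u, T.num t.c (T.io P.u) - 1 - i) := by
            simp [Portal.cross, hi2, hne]
          have e4 : P.xm p t.c t.a (P.v, i) = (P.J p)⁻¹ * E (p.1 P.u) := by
            simp [Portal.xm, hi2, hne]
          rw [e3, e4] at e1
          rw [e3] at e2
          exact ⟨e1, e2, by omega⟩)
      have k1 := key (j + 1) (by omega) (by omega)
      rw [Nat.sub_zero, Pd_zero, one_mul] at k1
      have e3 : P.cross t.c t.a (P.v, j) = (T.io P.u, T.num t.c (T.io P.u) - 1 - j) := by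
        simp [Portal.cross, h3, hne]
      have e4 : P.xm p t.c t.a (P.v, j) = (P.J p)⁻¹ * E (p.1 P.u) := by
        simp [Portal.xm, h3, hne]
      have e5 : t.xR p (P.v, j) = (t.RJ p)⁻¹ * t.Ri p P.u := by
        simp [PTD.xR, h3, hne]
      have e6 : T.num t.c (T.io P.u) - (j + 1) = T.num t.c (T.io P.u) - 1 - j := by omega
      rw [e6] at k1
      rw [e3, e4, e5, k1]
      have e7 : t.Ri p P.u = t.H p P.u * E (p.1 P.u) := by
        simp [PTD.Ri, hiu.symm, hne2]
      have e8 : t.Pd p (T.io P.u) (T.num t.c (T.io P.u)) = t.H p (T.io P.u) := rfl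
      rw [e7, e8, hH3]
      unfold PTD.RJ
      group
    · -- in the surface
      have key := Fconst t p P.v (T.io P.v) (T.num t.c P.v) t.a
        (T.num t.c P.v) (E (p.1 P.v)) (fun i hi1 hi2 => by
          have hi4 : ¬ i < t.a := by omega
          have e1 := (hS T P t p hx P.v i hi2).2.1
          have e2 := t.m_rev P.v i hi2
          have e3 : P.cross t.c t.a (P.v, i) = (T.io P.v, T.num t.c P.v - 1 - i) := by
            simp [Portal.cross, hi4, hne]
          have e4 : P.xm p t.c t.a (P.v, i) = E (p.1 P.v) := by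
            simp [Portal.xm, hi4, hne]
          rw [e3, e4] at e1
          rw [e3] at e2
          exact ⟨e1, e2, hi2⟩)
      have k1 := key (j + 1) (by omega) (by omega)
      have k2 := key (T.num t.c P.v) (by omega) le_rfl
      rw [← k2, Nat.sub_self, Pd_zero, inv_one, mul_one] at k1
      have e3 : P.cross t.c t.a (P.v, j) = (T.io P.v, T.num t.c P.v - 1 - j) := by
        simp [Portal.cross, h3, hne]
      have e4 : P.xm p t.c t.a (P.v, j) = E (p.1 P.v) := by
        simp [Portal.xm, h3, hne]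
      have e5 : t.xR p (P.v, j) = t.Ri p P.v := by
        simp [PTD.xR, h3, hne]
      have e6 : T.num t.c P.v - (j + 1) = T.num t.c P.v - 1 - j := by omega
      rw [e6] at k1
      rw [e3, e4, e5, k1]
      have e7 : t.Ri p P.v = t.H p P.v * E (p.1 P.v) := by
        simp [PTD.Ri, hne, hiv.symm]
      rw [e7]
      rfl
  by_cases h3 : d = T.io P.v
  · subst h3
    have hlt : T.num t.c (T.io P.v) ≤ T.num t.c P.v := by omega
    have key := Fconst t p (T.io P.v) P.v (T.num t.c P.v) 0
      (T.num t.c (T.io P.v)) (E (p.1 P.v)) (fun i hi1 hi2 => by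
        have e1 := (hS T P t p hx (T.io P.v) i hi2).2.1
        have e2 := t.m_rev (T.io P.v) i hi2
        have e3 : P.cross t.c t.a (T.io P.v, i) = (P.v, T.num t.c P.v - 1 - i) := by
          simp [Portal.cross, hiv, hiuv.symm]
        have e4 : P.xm p t.c t.a (T.io P.v, i) = E (p.1 P.v) := by
          simp [Portal.xm, hiv, hiuv.symm, hx]
        rw [e3, e4] at e1
        rw [e3] at e2
        exact ⟨e1, e2, by omega⟩)
    have k1 := key (j + 1) (by omega) (by omega)
    rw [Nat.sub_zero, Pd_zero, one_mul] at k1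
    have e3 : P.cross t.c t.a (T.io P.v, j) = (P.v, T.num t.c P.v - 1 - j) := by
      simp [Portal.cross, hiv, hiuv.symm]
    have e4 : P.xm p t.c t.a (T.io P.v, j) = E (p.1 P.v) := by
      simp [Portal.xm, hiv, hiuv.symm, hx]
    have e5 : t.xR p (T.io P.v, j) = t.Ri p (T.io P.v) := by
      simp [PTD.xR, hiv, hiuv.symm]
    have e6 : T.num t.c P.v - (j + 1) = T.num t.c P.v - 1 - j := by omega
    rw [e6] at k1
    rw [e3, e4, e5, k1]
    have e7 : t.Ri p (T.io P.v) = -(t.H p P.v * E (p.1 P.v))⁻¹ := by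
      simp [PTD.Ri, hiuv.symm]
    have e8 : t.Pd p P.v (T.num t.c P.v) = t.H p P.v := rfl
    rw [e7, e8, inv_of_EE]
  · -- the other darts (also `u`)
    have key := Fconst t p d (T.io d) (T.num t.c d) 0
      (T.num t.c d) (E (p.1 d)) (fun i hi1 hi2 => by
        have e1 := (hS T P t p hx d i hi2).2.1
        have e2 := t.m_rev d i hi2
        have e3 : P.cross t.c t.a (d, i) = (T.io d, T.num t.c d - 1 - i) := by
          simp [Portal.cross, h1, h2, h3]
        have e4 : P.xm p t.c t.a (d, i) = E (p.1 d) := by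
          simp [Portal.xm, h1, h2]
        rw [e3, e4] at e1
        rw [e3] at e2
        exact ⟨e1, e2, hi2⟩)
    have k1 := key (j + 1) (by omega) (by omega)
    have k2 := key (T.num t.c d) (by omega) le_rfl
    rw [← k2, Nat.sub_self, Pd_zero, inv_one, mul_one] at k1
    have e3 : P.cross t.c t.a (d, j) = (T.io d, T.num t.c d - 1 - j) := by
      simp [Portal.cross, h1, h2, h3]
    have e4 : P.xm p t.c t.a (d, j) = E (p.1 d) := by
      simp [Portal.xm, h1, h2]
    have e5 : t.xR p (d, j) = t.Ri p d := by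
      simp [PTD.xR, h1, h2]
    have e6 : T.num t.c d - (j + 1) = T.num t.c d - 1 - j := by omega
    rw [e6] at k1
    rw [e3, e4, e5, k1]
    have e7 : t.Ri p d = t.H p d * E (p.1 d) := by
      simp [PTD.Ri, h1, h3]
    rw [e7]
    rfl

/-- The turn formula. -/
theorem turn_formula (hS : C_str) (hH : C_H) (T : Tri D) (P : Portal T) (t : PTD P)
    (p : (D → ℝ) × ℝ) (hx : ∀ d, p.1 (T.io d) = p.1 d) (d : D) :
    ∀ i, t.c d ≤ i → i ≤ T.num t.c d →
      t.Rs p d * t.Pd p (T.sg d) (T.num t.c d - i) = t.Pd p d i * W := by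
  intro i hi
  induction i, hi using Nat.le_induction with
  | base =>
    intro _
    have h1 := (hH T P t p hx).1 d
    have h2 : T.num t.c d - t.c d = t.c (T.sg d) := by unfold Tri.num; omega
    rw [h2]
    unfold PTD.Rs
    rw [h1]
    group
  | succ i hi ih =>
    intro hi2
    have ih' := ih (by omega)
    have h1 := (hS T P t p hx d i (by omega)).2.2 hi
    have h2 : T.num t.c d - i = (T.num t.c d - 1 - i) + 1 := by omega
    have h3 : T.num t.c d - (i + 1) = T.num t.c d - 1 - i := by omega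
    rw [h2, Pd_succ] at ih'
    rw [h3, Pd_succ, h1.1, h1.2]
    have h4 : (W * (t.str p (T.sg d, T.num t.c d - 1 - i))⁻¹ * W⁻¹) ^
        t.m (T.sg d, T.num t.c d - 1 - i) =
        W * (t.str p (T.sg d, T.num t.c d - 1 - i) ^
          t.m (T.sg d, T.num t.c d - 1 - i))⁻¹ * W⁻¹ := by
      rw [conj_zpow, _root_.inv_zpow]
    rw [h4]
    have h5 : t.Rs p d * t.Pd p (T.sg d) (T.num t.c d - 1 - i) = t.Pd p d i * W *
        (t.str p (T.sg d, T.num t.c d - 1 - i) ^ t.m (T.sg d, T.num t.c d - 1 - i))⁻¹ := by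
      rw [← ih']
      group
    rw [h5]
    group

theorem tele (hLet : C_let) (hS : C_str) (hH : C_H) (hR : C_R) : C_tele := by
  intro D _ _ T P t p hx d i hi
  have hl := (hLet T P t.c t.a t.hc p hx (d, i) hi).2.2.1
  have hsn : P.snext t.c t.a (d, i) = P.cross t.c t.a (Portal.out (T := T) t.c (d, i)) := rfl
  simp only at hl
  by_cases hci : t.c d ≤ i
  · have hb : Tri.sbit t.c (d, i) = true := by simp [Tri.sbit, hci]
    have hlt : ¬ i < t.c d := by omega
    have ho : Portal.out (T := T) t.c (d, i) = (T.sg d, T.num t.c d - 1 - i) := by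
      simp [Portal.out, hlt]
    rw [hb, ho] at hl
    rw [hsn, hb, ho, hl]
    simp only [if_true]
    have hj : T.num t.c d - 1 - i < T.num t.c (T.sg d) := by
      unfold Tri.num at hi ⊢; omega
    rw [cross_formula hS hH T P t p hx _ _ hj]
    have h1 := turn_formula hS hH T P t p hx d i hci (by omega)
    have h2 : T.num t.c d - i = T.num t.c d - 1 - i + 1 := by omega
    rw [h2] at h1
    rw [← mul_assoc, ← mul_assoc, h1]
    group
  · have hlt : i < t.c d := by omega
    have hb : Tri.sbit t.c (d, i) = false := by simp [Tri.sbit]; omega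
    have ho : Portal.out (T := T) t.c (d, i) =
        (T.sg (T.sg d), T.num t.c (T.sg (T.sg d)) - 1 - i) := by
      simp [Portal.out, hlt]
    rw [hb, ho] at hl
    rw [hsn, hb, ho, hl]
    simp only [Bool.false_eq_true, if_false]
    have hn : T.num t.c (T.sg (T.sg d)) = t.c (T.sg (T.sg d)) + t.c d := by
      unfold Tri.num; rw [T.sg3]
    have hj : T.num t.c (T.sg (T.sg d)) - 1 - i < T.num t.c (T.sg (T.sg d)) := by omega
    rw [cross_formula hS hH T P t p hx _ _ hj]
    have h1 := turn_formula hS hH T P t p hx (T.sg (T.sg d))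
      (T.num t.c (T.sg (T.sg d)) - i) (by omega) (by omega)
    have h2 : T.num t.c (T.sg (T.sg d)) - (T.num t.c (T.sg (T.sg d)) - i) = i := by omega
    have h3 : T.num t.c (T.sg (T.sg d)) - i = T.num t.c (T.sg (T.sg d)) - 1 - i + 1 := by omega
    rw [h2, T.sg3, h3] at h1
    have h4 := (hR T P t p hx).1 d
    have h5 : t.Rs p d * t.Rs p (T.sg d) *
        t.Pd p (T.sg (T.sg d)) (T.num t.c (T.sg (T.sg d)) - 1 - i + 1) =
        t.Pd p d i * (W * W) := by
      have h6 : t.Pd p (T.sg (T.sg d)) (T.num t.c (T.sg (T.sg d)) - 1 - i + 1) =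
          t.Rs p (T.sg (T.sg d)) * t.Pd p d i * W⁻¹ := by
        rw [h1]; group
      rw [h6]
      have h7 : t.Rs p d * t.Rs p (T.sg d) * (t.Rs p (T.sg (T.sg d)) * t.Pd p d i * W⁻¹) =
          (t.Rs p d * t.Rs p (T.sg d) * t.Rs p (T.sg (T.sg d))) * t.Pd p d i * W⁻¹ := by group
      rw [h7, h4]
      have h8 : (-1 : SL) * t.Pd p d i * W⁻¹ = t.Pd p d i * (-1 : SL) * W⁻¹ := by simp
      rw [h8, ← W3]
      group
    rw [← mul_assoc, ← mul_assoc, h5]
    group

end Run7.h939.DG
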