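import Pool.Agent.Run7.h568.DG.CIface
import Pool.Agent.Run7.h483.DG.Gauge

/-!
# Dense Thurston geodesics, closed surfaces: the gauge (piece `C_gauge`, by helper939)
-/

set_option linter.all false

open Real Matrix

noncomputable section

namespace Run7.h939.DG

open Run7.h568.DG Run7.h483.DG

variable {D : Type} [Fintype D] [DecidableEq D]

theorem E_inv' (s : ℝ) : (E s)⁻¹ = -E s := by
  have h1 := EE s
  have h2 : E s * (-E s) = 1 := by rw [mul_neg, h1, neg_neg]
  exact inv_eq_of_mul_eq_one_right h2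

/-- The identity of the triangle. -/
theorem tri_id (A B C : SL) (hABC : A * B * C = -1) (ξ0 ξ1 ξ2 : ℝ) :
    let h0 := A.1 0 0 * ξ1 - A.1 0 1
    let h1 := A.1 1 0 * ξ1 - A.1 1 1
    let v0 := B.1 0 0 * ξ2 - B.1 0 1
    let v1 := B.1 1 0 * ξ2 - B.1 1 1
    let w0 := C.1 0 0 * ξ0 - C.1 0 1
    let w1 := C.1 1 0 * ξ0 - C.1 1 1
    (h0 + ξ0 * h1) * (A.1 0 0 * v0 + A.1 0 1 * v1) =
        (w0 + ξ2 * w1) * h0 - (v0 + ξ1 * v1) * ξ0 ∧
      (h0 + ξ0 * h1) * (A.1 1 0 * v0 + A.1 1 1 * v1) =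
        (w0 + ξ2 * w1) * h1 + (v0 + ξ1 * v1) := by
  have hAB : A * B = -C⁻¹ := by
    have : A * B = (-1 : SL) * C⁻¹ := by rw [← hABC]; group
    rw [this]; simp
  have k00 := congrArg (fun M : SL => M.1 0 0) hAB
  have k01 := congrArg (fun M : SL => M.1 0 1) hAB
  have k10 := congrArg (fun M : SL => M.1 1 0) hAB
  have k11 := congrArg (fun M : SL => M.1 1 1) hAB
  simp only [neg_val, inv00, inv01, inv10, inv11, mul00, mul01, mul10, mul11, neg_neg] at k00 k01 k10 k11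
  have hA := sl_det A
  have c11 : C.1 1 1 = -(A.1 0 0 * B.1 0 0 + A.1 0 1 * B.1 1 0) := by linarith
  have c01 : C.1 0 1 = A.1 0 0 * B.1 0 1 + A.1 0 1 * B.1 1 1 := by linarith
  have c10 : C.1 1 0 = A.1 1 0 * B.1 0 0 + A.1 1 1 * B.1 1 0 := by linarith
  have c00 : C.1 0 0 = -(A.1 1 0 * B.1 0 1 + A.1 1 1 * B.1 1 1) := by linarith
  intro h0 h1 v0 v1 w0 w1
  have hl : v0 + ξ1 * v1 = (C.1 1 1 * ξ2 + C.1 0 1) * h1 + (C.1 1 0 * ξ2 + C.1 0 0) * h0 := by
    simp only [v0, v1, h0, h1]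
    rw [c11, c01, c10, c00]
    linear_combination (-((B.1 0 0 * ξ2 - B.1 0 1) + ξ1 * (B.1 1 0 * ξ2 - B.1 1 1))) * hA
  have e0 : A.1 0 0 * v0 + A.1 0 1 * v1 = -C.1 1 1 * ξ2 - C.1 0 1 := by
    simp only [v0, v1]
    rw [c11, c01]; ring
  have e1 : A.1 1 0 * v0 + A.1 1 1 * v1 = C.1 1 0 * ξ2 + C.1 0 0 := by
    simp only [v0, v1]
    rw [c10, c00]; ring
  rw [e0, e1, hl]
  constructor <;> · simp only [w0, w1]; ring

/-- From one column and the direction of the other. -/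
theorem two_col (M N : SL) (τ0 τ1 κ : ℝ) (h01 : M.1 0 1 = N.1 0 1) (h11 : M.1 1 1 = N.1 1 1)
    (hM0 : M.1 0 0 = κ * τ0) (hM1 : M.1 1 0 = κ * τ1) (c : ℝ) (hN0 : N.1 0 0 = c * τ0)
    (hN1 : N.1 1 0 = c * τ1) : M = N := by
  have d1 := sl_det M
  have d2 := sl_det N
  rw [hM0, hM1, h01, h11] at d1
  rw [hN0, hN1] at d2
  have h : κ = c := by
    have e1 : κ * (τ0 * N.1 1 1 - N.1 0 1 * τ1) = 1 := by linarith
    have e2 : c * (τ0 * N.1 1 1 - N.1 0 1 * τ1) = 1 := by linarith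
    have e3 : (τ0 * N.1 1 1 - N.1 0 1 * τ1) ≠ 0 := by
      intro h; rw [h, mul_zero] at e1; exact zero_ne_one e1
    exact mul_right_cancel₀ e3 (e1.trans e2.symm)
  apply sl_ext4
  · rw [hM0, hN0, h]
  · exact h01
  · rw [hM1, hN1, h]
  · exact h11

theorem gauge_full (hR : C_R) (hE : C_eig) (hL : C_la) : C_gauge := by
  intro D _ _ T P t p hp
  have hx : ∀ d, p.1 (T.io d) = p.1 d := hp.1
  obtain ⟨-, -, -, -, -, hxi, -, -, hom, -, hRJ, hrot, h6, -⟩ := hE T P t p hp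
  obtain ⟨hR1, hR2, -⟩ := hR T P t p hx
  have hne : P.v ≠ T.io P.u := P.hne
  have huv : P.u ≠ P.v := P.huv 0
  have hne2 : P.u ≠ T.io P.v := by
    intro h
    apply hne
    rw [h, T.io_io]
  have hla : ∀ d, 0 < t.la p d := hL T P t p hp
  set ξ : D → ℝ := t.xi p with hξ
  set a : D → ℝ := fun d => exp (t.al p d / 2) with ha
  have apos : ∀ d, 0 < a d := fun d => exp_pos _
  have aa : ∀ d, a d * a (T.sg d) = t.la p d := by
    intro d
    rw [ha]
    simp only
    rw [← Real.exp_add]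
    have h1 : t.al p d / 2 + t.al p (T.sg d) / 2 = t.Lam p d := by
      unfold PTD.al
      rw [T.sg3]
      ring
    rw [h1]
    exact Real.exp_log (hla d)
  -- the head vector
  have hh0 : ∀ d, t.h0 p d = (t.Rs p d).1 0 0 * ξ (T.sg d) - (t.Rs p d).1 0 1 := by
    intro d
    unfold PTD.h0 PTD.Rs
    simp only [mul00, mul01, W00, W01, W10, W11]
    ring
  have hh1 : ∀ d, t.h1 p d = (t.Rs p d).1 1 0 * ξ (T.sg d) - (t.Rs p d).1 1 1 := by
    intro d
    unfold PTD.h1 PTD.Rs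
    simp only [mul10, mul11, W00, W01, W10, W11]
    ring
  have hlad : ∀ d, t.la p d = t.h0 p d + ξ d * t.h1 p d := fun d => rfl
  have gdet : ∀ d, (!![t.h0 p d / a (T.sg d), -ξ d / a d; t.h1 p d / a (T.sg d), 1 / a d] :
      Matrix (Fin 2) (Fin 2) ℝ).det = 1 := by
    intro d
    rw [Matrix.det_fin_two]
    simp only [Matrix.of_apply, Matrix.cons_val', Matrix.cons_val_zero, Matrix.cons_val_one,
      Matrix.cons_val_fin_one]
    have h1 := aa d
    rw [hlad] at h1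
    have h2 := (apos d).ne'
    have h3 := (apos (T.sg d)).ne'
    field_simp
    linarith
  set g : D → SL := fun d => ⟨!![t.h0 p d / a (T.sg d), -ξ d / a d;
    t.h1 p d / a (T.sg d), 1 / a d], gdet d⟩ with hg
  have g00 : ∀ d, (g d).1 0 0 = t.h0 p d / a (T.sg d) := fun d => rfl
  have g01 : ∀ d, (g d).1 0 1 = -ξ d / a d := fun d => rfl
  have g10 : ∀ d, (g d).1 1 0 = t.h1 p d / a (T.sg d) := fun d => rfl
  have g11 : ∀ d, (g d).1 1 1 = 1 / a d := fun d => rfl
  -- crossing relation: `Ri e * t (io e)` is a positive multiple of `h e`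
  have hcr : ∀ e, ∃ r, 0 < r ∧ (t.Ri p e).1 0 0 * (-ξ (T.io e)) + (t.Ri p e).1 0 1 = r * t.h0 p e ∧
      (t.Ri p e).1 1 0 * (-ξ (T.io e)) + (t.Ri p e).1 1 1 = r * t.h1 p e := by
    intro e
    obtain ⟨r, hr, hact⟩ := hrot (T.sg e)
    have h1 : T.rho (T.sg e) = T.io e := by unfold Tri.rho; rw [T.sg3]
    rw [h1, T.sg3] at hact
    have h2 := hR1 e
    have h3 : t.Rs p (T.sg e) * t.Rs p (T.sg (T.sg e)) = -(t.Rs p e)⁻¹ := by
      have : t.Rs p (T.sg e) * t.Rs p (T.sg (T.sg e)) = (t.Rs p e)⁻¹ * (-1 : SL) := by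
        rw [← h2]; group
      rw [this]; simp
    rw [h3] at hact
    obtain ⟨ha1, ha2⟩ := hact
    simp only [mul00, mul01, mul10, mul11, neg_val, inv00, inv01, inv10, inv11] at ha1 ha2
    have hdet := sl_det (t.Rs p e)
    have e1 : (t.Rs p e).1 1 1 * ((t.Ri p e).1 0 0 * (-ξ (T.io e)) + (t.Ri p e).1 0 1) -
        (t.Rs p e).1 0 1 * ((t.Ri p e).1 1 0 * (-ξ (T.io e)) + (t.Ri p e).1 1 1) =
        r * ξ (T.sg e) := by
      linear_combination -ha1
    have e2 : -(t.Rs p e).1 1 0 * ((t.Ri p e).1 0 0 * (-ξ (T.io e)) + (t.Ri p e).1 0 1) +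
        (t.Rs p e).1 0 0 * ((t.Ri p e).1 1 0 * (-ξ (T.io e)) + (t.Ri p e).1 1 1) =
        -r := by
      linear_combination -ha2
    refine ⟨r, hr, ?_, ?_⟩
    · rw [hh0]
      linear_combination (t.Rs p e).1 0 0 * e1 + (t.Rs p e).1 0 1 * e2 -
        ((t.Ri p e).1 0 0 * (-ξ (T.io e)) + (t.Ri p e).1 0 1) * hdet
    · rw [hh1]
      linear_combination (t.Rs p e).1 1 0 * e1 + (t.Rs p e).1 1 1 * e2 -
        ((t.Ri p e).1 1 0 * (-ξ (T.io e)) + (t.Ri p e).1 1 1) * hdet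
  -- the crossings of the darts other than `io u`, `io v`
  have hcross : ∀ d, d ≠ T.io P.u → d ≠ T.io P.v →
      t.Ri p d * g (T.io d) = g d * E ((t.tw p).1 d) := by
    intro d hd1 hd2
    have hRi : t.Ri p d = t.H p d * E (p.1 d) := by simp [PTD.Ri, hd1, hd2]
    have h1ξ : 0 < 1 + ξ (T.sg d) := by have := hxi (T.sg d); linarith
    set e : ℝ := exp (p.1 d / 2) with he
    have epos : 0 < e := exp_pos _
    have e1 : exp (-(p.1 d) / 2) = e⁻¹ := exp_neg_half _
    have hs : (t.tw p).1 d = p.1 d + t.al p (T.sg d) - t.al p (T.io d) -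
        2 * log (1 + ξ (T.sg d)) := by
      simp [PTD.tw, PTD.tw1, hd1, hd2, hξ]
    set s : ℝ := (t.tw p).1 d with hsdef
    have hf : exp (s / 2) = e * a (T.sg d) / a (T.io d) / (1 + ξ (T.sg d)) := by
      have h1 : s / 2 = p.1 d / 2 + t.al p (T.sg d) / 2 - t.al p (T.io d) / 2 -
          log (1 + ξ (T.sg d)) := by rw [hs]; ring
      rw [h1, Real.exp_sub, Real.exp_sub, Real.exp_add, Real.exp_log h1ξ]
    have h6d : ξ (T.io d) * (e⁻¹ * e⁻¹) * (1 + ξ (T.sg d)) = ξ (T.sg d) := by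
      have h := h6 d hd1 hd2
      have h2 : exp (-(p.1 d)) = e⁻¹ * e⁻¹ := by
        rw [← e1, ← Real.exp_add]; congr 1; ring
      rw [h2] at h
      exact h
    have hy0 : ((t.Ri p d).1 0 0 * (-ξ (T.io d)) + (t.Ri p d).1 0 1) * (1 + ξ (T.sg d)) =
        e * t.h0 p d := by
      rw [hRi]
      unfold PTD.h0
      simp only [mul00, mul01, E00, E01, E10, E11, e1]
      have h3 : ξ (T.sg d) = t.xi p (T.sg d) := rfl
      rw [← h3]
      rw [← he]
      have h4 : e⁻¹ * ξ (T.io d) * (1 + ξ (T.sg d)) = e * ξ (T.sg d) := by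
        calc e⁻¹ * ξ (T.io d) * (1 + ξ (T.sg d)) =
            e * (ξ (T.io d) * (e⁻¹ * e⁻¹) * (1 + ξ (T.sg d))) := by field_simp
          _ = e * ξ (T.sg d) := by rw [h6d]
      linear_combination (t.H p d).1 0 1 * h4
    have hy1 : ((t.Ri p d).1 1 0 * (-ξ (T.io d)) + (t.Ri p d).1 1 1) * (1 + ξ (T.sg d)) =
        e * t.h1 p d := by
      rw [hRi]
      unfold PTD.h1
      simp only [mul10, mul11, E00, E01, E10, E11, e1]
      have h3 : ξ (T.sg d) = t.xi p (T.sg d) := rfl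
      rw [← h3]
      rw [← he]
      have h4 : e⁻¹ * ξ (T.io d) * (1 + ξ (T.sg d)) = e * ξ (T.sg d) := by
        calc e⁻¹ * ξ (T.io d) * (1 + ξ (T.sg d)) =
            e * (ξ (T.io d) * (e⁻¹ * e⁻¹) * (1 + ξ (T.sg d))) := by field_simp
          _ = e * ξ (T.sg d) := by rw [h6d]
      linear_combination (t.H p d).1 1 1 * h4
    obtain ⟨r, hr, hc0, hc1⟩ := hcr (T.io d)
    rw [T.io_io] at hc0 hc1
    have hinv := hR2 d
    have hinv' : t.Ri p (T.io d) = -(t.Ri p d)⁻¹ := by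
      have : t.Ri p (T.io d) = (t.Ri p d)⁻¹ * (-1 : SL) := by rw [← hinv]; group
      rw [this]; simp
    rw [hinv'] at hc0 hc1
    simp only [neg_val, inv00, inv01, inv10, inv11] at hc0 hc1
    have hdet := sl_det (t.Ri p d)
    have q0 : r * ((t.Ri p d).1 0 0 * t.h0 p (T.io d) + (t.Ri p d).1 0 1 * t.h1 p (T.io d)) =
        ξ d := by
      linear_combination (-(t.Ri p d).1 0 0) * hc0 - (t.Ri p d).1 0 1 * hc1 + ξ d * hdet
    have q1 : r * ((t.Ri p d).1 1 0 * t.h0 p (T.io d) + (t.Ri p d).1 1 1 * t.h1 p (T.io d)) =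
        -1 := by
      linear_combination (-(t.Ri p d).1 1 0) * hc0 - (t.Ri p d).1 1 1 * hc1 - hdet
    have a0 := (apos d).ne'
    have a1 := (apos (T.sg d)).ne'
    have b0 := (apos (T.io d)).ne'
    have b1 := (apos (T.sg (T.io d))).ne'
    have r0 := hr.ne'
    have x0 := h1ξ.ne'
    refine two_col _ _ (-ξ d) 1 (-(1 / (r * a (T.sg (T.io d))))) ?_ ?_ ?_ ?_
      (-(exp (-s / 2) / a d)) ?_ ?_
    · simp only [mul01, E00, E01, E10, E11, g00, g01, g10, g11]
      rw [hf]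
      have h5 : (t.Ri p d).1 0 0 * (-ξ (T.io d)) + (t.Ri p d).1 0 1 =
          e * t.h0 p d / (1 + ξ (T.sg d)) := by
        rw [eq_div_iff x0]; exact hy0
      have h7 : (t.Ri p d).1 0 0 * (-ξ (T.io d) / a (T.io d)) +
          (t.Ri p d).1 0 1 * (1 / a (T.io d)) =
          ((t.Ri p d).1 0 0 * (-ξ (T.io d)) + (t.Ri p d).1 0 1) / a (T.io d) := by ring
      rw [h7, h5]
      field_simp
      try ring
    · simp only [mul11, E00, E01, E10, E11, g00, g01, g10, g11]
      rw [hf]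
      have h5 : (t.Ri p d).1 1 0 * (-ξ (T.io d)) + (t.Ri p d).1 1 1 =
          e * t.h1 p d / (1 + ξ (T.sg d)) := by
        rw [eq_div_iff x0]; exact hy1
      have h7 : (t.Ri p d).1 1 0 * (-ξ (T.io d) / a (T.io d)) +
          (t.Ri p d).1 1 1 * (1 / a (T.io d)) =
          ((t.Ri p d).1 1 0 * (-ξ (T.io d)) + (t.Ri p d).1 1 1) / a (T.io d) := by ring
      rw [h7, h5]
      field_simp
      try ring
    · simp only [mul00, g00, g10]
      have h7 : (t.Ri p d).1 0 0 * (t.h0 p (T.io d) / a (T.sg (T.io d))) +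
          (t.Ri p d).1 0 1 * (t.h1 p (T.io d) / a (T.sg (T.io d))) =
          ((t.Ri p d).1 0 0 * t.h0 p (T.io d) + (t.Ri p d).1 0 1 * t.h1 p (T.io d)) /
            a (T.sg (T.io d)) := by ring
      have h8 : (t.Ri p d).1 0 0 * t.h0 p (T.io d) + (t.Ri p d).1 0 1 * t.h1 p (T.io d) =
          ξ d / r := by
        rw [eq_div_iff r0]; linarith
      rw [h7, h8]
      field_simp
      try ring
    · simp only [mul10, g00, g10]
      have h7 : (t.Ri p d).1 1 0 * (t.h0 p (T.io d) / a (T.sg (T.io d))) +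
          (t.Ri p d).1 1 1 * (t.h1 p (T.io d) / a (T.sg (T.io d))) =
          ((t.Ri p d).1 1 0 * t.h0 p (T.io d) + (t.Ri p d).1 1 1 * t.h1 p (T.io d)) /
            a (T.sg (T.io d)) := by ring
      have h8 : (t.Ri p d).1 1 0 * t.h0 p (T.io d) + (t.Ri p d).1 1 1 * t.h1 p (T.io d) =
          -1 / r := by
        rw [eq_div_iff r0]; linarith
      rw [h7, h8]
      field_simp
      try ring
    · simp only [mul00, E00, E01, E10, E11, g00, g01, g10, g11]
      field_simp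
      try ring
    · simp only [mul10, E00, E01, E10, E11, g00, g01, g10, g11]
      field_simp
      try ring
  -- inverses
  have hcross' : ∀ e, e ≠ T.io P.u → e ≠ T.io P.v → (t.tw p).1 (T.io e) = (t.tw p).1 e →
      t.Ri p (T.io e) * g e = g (T.io e) * E ((t.tw p).1 (T.io e)) := by
    intro e he1 he2 htw
    have h1 := hcross e he1 he2
    have hinv := hR2 e
    have hinv' : t.Ri p (T.io e) = (t.Ri p e)⁻¹ * (-1 : SL) := by rw [← hinv]; group
    have h2 : g (T.io e) = (t.Ri p e)⁻¹ * (g e * E ((t.tw p).1 e)) := by rw [← h1]; group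
    rw [htw, h2, hinv', mul_assoc, mul_assoc, mul_assoc, EE]
    simp
  have hu1 : (t.tw p).1 (T.io P.u) = (t.tw p).1 P.u := by
    have h1 : P.u ≠ T.io P.u := (T.io_ne _).symm
    simp [PTD.tw, h1, hne2]
  have hv1 : (t.tw p).1 (T.io P.v) = (t.tw p).1 P.v := by
    have h1 : P.v ≠ T.io P.v := (T.io_ne _).symm
    have h2 : T.io P.v ≠ T.io P.u := fun h => huv (T.io.injective h).symm
    simp [PTD.tw, h1, h2, hne]
  refine ⟨g, fun d => ⟨?_, ?_, ?_, ?_⟩, ?_, ?_⟩
  · -- the rotation of the triangle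
    have hid := tri_id (t.Rs p d) (t.Rs p (T.sg d)) (t.Rs p (T.sg (T.sg d))) (hR1 d) (ξ d)
      (ξ (T.sg d)) (ξ (T.sg (T.sg d)))
    simp only at hid
    have k0 := hh0 d
    have k1 := hh1 d
    have l0 := hh0 (T.sg d)
    have l1 := hh1 (T.sg d)
    have m0 := hh0 (T.sg (T.sg d))
    have m1 := hh1 (T.sg (T.sg d))
    rw [T.sg3] at m0 m1
    rw [← k0, ← k1, ← l0, ← l1, ← m0, ← m1] at hid
    have n0 := hlad d
    have n1 := hlad (T.sg d)
    have n2 := hlad (T.sg (T.sg d))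
    rw [← n0, ← n1, ← n2] at hid
    have aa0 := aa d
    have aa1 := aa (T.sg d)
    have aa2 := aa (T.sg (T.sg d))
    rw [T.sg3] at aa2
    rw [← aa0, ← aa1, ← aa2] at hid
    have a0 := (apos d).ne'
    have a1 := (apos (T.sg d)).ne'
    have a2 := (apos (T.sg (T.sg d))).ne'
    obtain ⟨hid0, hid1⟩ := hid
    apply sl_ext4
    · simp only [mul00, W00, W01, W10, W11, g00, g01, g10, g11]
      have h7 : (t.Rs p d).1 0 0 * (t.h0 p (T.sg d) / a (T.sg (T.sg d))) +
          (t.Rs p d).1 0 1 * (t.h1 p (T.sg d) / a (T.sg (T.sg d))) =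
          (a d * a (T.sg d) * ((t.Rs p d).1 0 0 * t.h0 p (T.sg d) +
            (t.Rs p d).1 0 1 * t.h1 p (T.sg d))) / (a d * a (T.sg d) * a (T.sg (T.sg d))) := by
        field_simp
      rw [h7, hid0]
      field_simp
      try ring
    · simp only [mul01, W00, W01, W10, W11, g00, g01, g10, g11]
      rw [k0]
      field_simp
      try ring
    · simp only [mul10, W00, W01, W10, W11, g00, g01, g10, g11]
      have h7 : (t.Rs p d).1 1 0 * (t.h0 p (T.sg d) / a (T.sg (T.sg d))) +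
          (t.Rs p d).1 1 1 * (t.h1 p (T.sg d) / a (T.sg (T.sg d))) =
          (a d * a (T.sg d) * ((t.Rs p d).1 1 0 * t.h0 p (T.sg d) +
            (t.Rs p d).1 1 1 * t.h1 p (T.sg d))) / (a d * a (T.sg d) * a (T.sg (T.sg d))) := by
        field_simp
      rw [h7, hid1]
      field_simp
      try ring
    · simp only [mul11, W00, W01, W10, W11, g00, g01, g10, g11]
      rw [k1]
      field_simp
      try ring
  · -- crossing an edge
    by_cases hd1 : d = T.io P.u
    · rw [hd1]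
      have h := hcross' P.u (T.io_ne _).symm hne2 hu1
      rw [T.io_io]
      exact h
    · by_cases hd2 : d = T.io P.v
      · rw [hd2]
        have h := hcross' P.v hne (T.io_ne _).symm hv1
        rw [T.io_io]
        exact h
      · exact hcross d hd1 hd2
  · rw [g01, g11]; ring
  · rw [g11]; exact div_pos one_pos (apos d)
  · obtain ⟨hJ0, hJ1⟩ := hRJ
    have a0 := (apos P.u).ne'
    have a1 := (apos P.v).ne'
    simp only [mul01, mul10, mul11, mul00, inv00, inv01, inv10, inv11, g00, g01, g10, g11]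
    have h1 : ξ P.v = t.xi p P.v := rfl
    have h2 : ξ P.u = t.xi p P.u := rfl
    rw [h1, h2]
    field_simp
    linear_combination hJ0 + t.xi p P.u * hJ1
  · obtain ⟨hJ0, hJ1⟩ := hRJ
    have a0 := (apos P.u).ne'
    have a1 := (apos P.v).ne'
    have hexp : exp (-(t.tw p).2 / 2) = t.om p * a P.u / a P.v := by
      have h3 : -(t.tw p).2 / 2 = log (t.om p) + t.al p P.u / 2 - t.al p P.v / 2 := by
        simp only [PTD.tw]; ring
      rw [h3, Real.exp_sub, Real.exp_add, Real.exp_log hom]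
    rw [hexp]
    have hlu := aa P.u
    rw [hlad] at hlu
    simp only [mul01, mul10, mul11, mul00, inv00, inv01, inv10, inv11, g00, g01, g10, g11]
    have h1 : ξ P.v = t.xi p P.v := rfl
    have h2 : ξ P.u = t.xi p P.u := rfl
    rw [h1]
    rw [h2] at hlu
    have a2 := (apos (T.sg P.u)).ne'
    field_simp
    linear_combination t.h0 p P.u * hJ1 - t.h1 p P.u * hJ0 - t.om p * hlu

end Run7.h939.DG
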